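import Mathlib

namespace Pool.Agent.Results.MP_93e0ce_lc.FGCommRingScott

open FirstOrder FirstOrder.Language

universe u v

/-- Infinitary formulas (countable conjunctions and disjunctions, finite strings of
quantifiers) over a language `L`, with free variables `x_0, …, x_(n-1)`; the building blocks
`fin` are finitary first-order formulas. -/
inductive Form (L : FirstOrder.Language.{0, 0}) : ℕ → Type
  | fin {n : ℕ} (φ : L.Formula (Fin n)) : Form L n
  | conj {n : ℕ} (F : ℕ → Form L n) : Form L n
  | disj {n : ℕ} (F : ℕ → Form L n) : Form L n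
  | and {n : ℕ} (φ ψ : Form L n) : Form L n
  | ex {n : ℕ} (k : ℕ) (φ : Form L (n + k)) : Form L n
  | all {n : ℕ} (k : ℕ) (φ : Form L (n + k)) : Form L n

/-- Satisfaction of an infinitary formula. -/
def Form.Realize {L : FirstOrder.Language.{0, 0}} {M : Type u} [L.Structure M] :
    {n : ℕ} → Form L n → (Fin n → M) → Prop
  | _, .fin φ, v => Formula.Realize φ v
  | _, .conj F, v => ∀ i, (F i).Realize v
  | _, .disj F, v => ∃ i, (F i).Realize v
  | _, .and φ ψ, v => φ.Realize v ∧ ψ.Realize v
  | _, .ex k φ, v => ∃ w : Fin k → M, φ.Realize (Fin.append v w)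
  | _, .all k φ, v => ∀ w : Fin k → M, φ.Realize (Fin.append v w)

/-- `IsLevel true m φ` says that `φ` is a `Σ_m` formula and `IsLevel false m φ` that it is a
`Π_m` formula: level `0` are the finitary quantifier-free formulas, a `Σ_m` formula is a
countable disjunction of formulas `∃ x̄ ψ` with `ψ` of level `Π_j` for some `j < m`, and a
`Π_m` formula is a countable conjunction of formulas `∀ x̄ ψ` with `ψ` of level `Σ_j` for some
`j < m`. -/
inductive IsLevel {L : FirstOrder.Language.{0, 0}} : Bool → ℕ → {n : ℕ} → Form L n → Prop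
  | qf (b : Bool) {n : ℕ} (φ : L.Formula (Fin n)) (h : BoundedFormula.IsQF φ) :
      IsLevel b 0 (.fin φ)
  | sigma (m : ℕ) {n : ℕ} (k : ℕ → ℕ) (ψ : ∀ i, Form L (n + k i)) (j : ℕ → ℕ)
      (hj : ∀ i, j i < m) (h : ∀ i, IsLevel false (j i) (ψ i)) :
      IsLevel true m (.disj fun i => .ex (k i) (ψ i))
  | pi (m : ℕ) {n : ℕ} (k : ℕ → ℕ) (ψ : ∀ i, Form L (n + k i)) (j : ℕ → ℕ)
      (hj : ∀ i, j i < m) (h : ∀ i, IsLevel true (j i) (ψ i)) :
      IsLevel false m (.conj fun i => .all (k i) (ψ i))

/-- `φ` is the conjunction of a `Σ_m` formula and a `Π_m` formula. -/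
def IsDSigma {L : FirstOrder.Language.{0, 0}} (m : ℕ) {n : ℕ} (φ : Form L n) : Prop :=
  ∃ σ π : Form L n, φ = .and σ π ∧ IsLevel true m σ ∧ IsLevel false m π

/-- `φ` is a Scott sentence of `A`: its countable models are exactly the structures
isomorphic to `A`. -/
def IsScottSentence {L : FirstOrder.Language.{0, 0}} (A : Type u) [L.Structure A]
    (φ : Form L 0) : Prop :=
  ∀ (M : Type v) [L.Structure M], Countable M →
    (φ.Realize (M := M) Fin.elim0 ↔ Nonempty (M ≃[L] A))

section General

variable {L : FirstOrder.Language.{0, 0}}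

theorem append_comp' {M : Type u} {N : Type v} (e : M → N) {n k : ℕ} (x : Fin n → M)
    (w : Fin k → M) : Fin.append (e ∘ x) (e ∘ w) = e ∘ Fin.append x w := by
  funext i
  refine Fin.addCases (fun j => ?_) (fun j => ?_) i <;> simp

theorem realize_equiv {M : Type u} {N : Type v} [L.Structure M] [L.Structure N] (e : M ≃[L] N)
    {n : ℕ} (φ : Form L n) : ∀ (x : Fin n → M), φ.Realize (e ∘ x) ↔ φ.Realize x := by
  induction φ with
  | fin φ => intro x; exact StrongHomClass.realize_formula e φ
  | conj F ih => intro x; exact forall_congr' fun i => ih i x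
  | disj F ih => intro x; exact exists_congr fun i => ih i x
  | and φ ψ ih1 ih2 => intro x; exact and_congr (ih1 x) (ih2 x)
  | ex k φ ih =>
    intro x
    simp only [Form.Realize]
    constructor
    · rintro ⟨w, hw⟩
      refine ⟨e.symm ∘ w, ?_⟩
      rw [← ih, ← append_comp']
      convert hw using 2
      funext i; simp
    · rintro ⟨w, hw⟩
      refine ⟨e ∘ w, ?_⟩
      rw [append_comp', ih]
      exact hw
  | all k φ ih =>
    intro x
    simp only [Form.Realize]
    constructor
    · intro h w
      rw [← ih, ← append_comp']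
      exact h _
    · intro h w
      have := h (e.symm ∘ w)
      rw [← ih, ← append_comp'] at this
      convert this using 2
      funext i; simp

/-- finite conjunction of a list of formulas -/
def listInf {α : Type} (l : List (L.Formula α)) : L.Formula α := l.foldr (· ⊓ ·) ⊤

theorem listInf_isQF {α : Type} (l : List (L.Formula α))
    (h : ∀ φ ∈ l, BoundedFormula.IsQF φ) : BoundedFormula.IsQF (listInf l) := by
  induction l with
  | nil => exact BoundedFormula.IsQF.top
  | cons a l ih =>
    exact BoundedFormula.IsQF.inf (h a (by simp)) (ih fun φ hφ => h φ (by simp [hφ]))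

theorem realize_listInf {α : Type} {M : Type u} [L.Structure M] (l : List (L.Formula α))
    (x : α → M) : (listInf l).Realize x ↔ ∀ φ ∈ l, φ.Realize x := by
  induction l with
  | nil => simp [listInf]
  | cons a l ih =>
    have : listInf (a :: l) = a ⊓ listInf l := rfl
    rw [this, Formula.realize_inf, ih]
    simp

theorem equal_isQF {α : Type} (s t : L.Term α) : BoundedFormula.IsQF (s.equal t) :=
  (BoundedFormula.IsAtomic.equal _ _).isQF

variable {A : Type u} [L.Structure A] {n : ℕ} (a : Fin n → A) (δ : L.Formula (Fin n))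

/-- tuples of terms that do not recover `a` from any solution of `δ` -/
abbrev Bad : Type :=
  {w : Fin n → L.Term (Fin n) // ¬ ∃ c : Fin n → A, δ.Realize c ∧ ∀ i, (w i).realize c = a i}

/-- indices of the conjuncts -/
abbrev Ix : Type := (L.Term (Fin n) × L.Term (Fin n)) ⊕ Bad a δ

open Classical in
/-- the conjuncts -/
noncomputable def theta {m : ℕ} (x : Fin n → Fin m) : Ix a δ → L.Formula (Fin (m + n))
  | .inl p => if p.1.realize a = p.2.realize a then
        (p.1.relabel (Fin.castAdd n ∘ x)).equal (p.2.relabel (Fin.castAdd n ∘ x))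
      else ((p.1.relabel (Fin.castAdd n ∘ x)).equal (p.2.relabel (Fin.castAdd n ∘ x))).not
  | .inr w => Formula.not (δ.relabel (Fin.natAdd m) ⊓ listInf (List.ofFn fun i : Fin n =>
      (Term.var (Fin.castAdd n (x i))).equal ((w.1 i).relabel (Fin.natAdd m))))

theorem theta_isQF (hδ : BoundedFormula.IsQF δ) {m : ℕ} (x : Fin n → Fin m) (i : Ix a δ) :
    BoundedFormula.IsQF (theta a δ x i) := by
  rcases i with p | w
  · simp only [theta]
    split_ifs
    · exact equal_isQF _ _
    · exact (equal_isQF _ _).not
  · simp only [theta]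
    refine BoundedFormula.IsQF.not (BoundedFormula.IsQF.inf (hδ.relabel _) (listInf_isQF _ ?_))
    intro φ hφ
    rw [List.mem_ofFn] at hφ
    obtain ⟨i, rfl⟩ := hφ
    exact equal_isQF _ _

variable {M : Type v} [L.Structure M]

theorem realize_theta_inl {m : ℕ} (x : Fin n → Fin m) (p : L.Term (Fin n) × L.Term (Fin n))
    (y : Fin m → M) (z : Fin n → M) :
    (theta a δ x (.inl p)).Realize (Fin.append y z) ↔
      (p.1.realize a = p.2.realize a ↔ p.1.realize (y ∘ x) = p.2.realize (y ∘ x)) := by
  have h : ∀ t : L.Term (Fin n), (t.relabel (Fin.castAdd n ∘ x)).realize (Fin.append y z)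
      = t.realize (y ∘ x) := by
    intro t
    rw [Term.realize_relabel]
    congr 1
    funext i
    exact Fin.append_left y z (x i)
  simp only [theta]
  split_ifs with hp
  · rw [Formula.realize_equal, h, h]
    tauto
  · rw [Formula.realize_not, Formula.realize_equal, h, h]
    tauto

theorem realize_theta_inr {m : ℕ} (x : Fin n → Fin m) (w : Bad a δ)
    (y : Fin m → M) (z : Fin n → M) :
    (theta a δ x (.inr w)).Realize (Fin.append y z) ↔
      ¬ (δ.Realize z ∧ ∀ i, y (x i) = (w.1 i).realize z) := by
  simp only [theta]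
  rw [Formula.realize_not, Formula.realize_inf, realize_listInf, Formula.realize_relabel]
  have h1 : (Fin.append y z ∘ Fin.natAdd m : Fin n → M) = z := by
    funext i; exact Fin.append_right y z i
  rw [h1]
  simp only [List.mem_ofFn, forall_exists_index, forall_apply_eq_imp_iff,
    Formula.realize_equal, Term.realize_relabel, Term.realize_var, Fin.append_left, h1]

/-- what the `Π₁` type says about a tuple `y` of `M` -/
def Good (y : Fin n → M) : Prop :=
  (∀ s t : L.Term (Fin n), s.realize a = t.realize a ↔ s.realize y = t.realize y) ∧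
  ∀ w : Bad a δ, ∀ z : Fin n → M, ¬ (δ.Realize z ∧ ∀ i, y i = (w.1 i).realize z)

theorem all_theta_iff {m : ℕ} (x : Fin n → Fin m) (y : Fin m → M) :
    (∀ i : Ix a δ, ∀ z : Fin n → M, (theta a δ x i).Realize (Fin.append y z)) ↔
      Good (M := M) a δ (y ∘ x) := by
  constructor
  · intro h
    refine ⟨fun s t => ?_, fun w z => ?_⟩
    · exact (realize_theta_inl a δ x (s, t) y (y ∘ x)).1 (h (.inl (s, t)) _)
    · exact (realize_theta_inr a δ x w y z).1 (h (.inr w) z)
  · rintro ⟨h1, h2⟩ (p | w) z
    · exact (realize_theta_inl a δ x p y z).2 (h1 p.1 p.2)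
    · exact (realize_theta_inr a δ x w y z).2 (h2 w z)

/-- The `Σ₂` part. -/
noncomputable def sigmaPart (e : ℕ → Ix a δ) : Form L 0 :=
  .disj fun _ => .ex n (.conj fun i => .all n (.fin (theta a δ (Fin.natAdd 0) (e i))))

/-- the matrices of the `Σ₁` formulas in the `Π₂` part -/
noncomputable def matrix : Ix a δ ⊕ L.Term (Fin n) → L.Formula (Fin (0 + (n + 1) + n))
  | .inl i => (theta a δ (fun j => Fin.natAdd 0 (Fin.castSucc j)) i).not
  | .inr t => (Term.var (Fin.castAdd n (Fin.natAdd 0 (Fin.last n)))).equal
      (t.relabel fun j => Fin.castAdd n (Fin.natAdd 0 (Fin.castSucc j)))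

/-- The `Π₂` part. -/
noncomputable def piPart (e : ℕ → Ix a δ ⊕ L.Term (Fin n)) : Form L 0 :=
  .conj fun _ => .all (n + 1) (.disj fun i => .ex n (.fin (matrix a δ (e i))))

theorem sigmaPart_level (hδ : BoundedFormula.IsQF δ) (e : ℕ → Ix a δ) :
    IsLevel true 2 (sigmaPart a δ e) := by
  refine IsLevel.sigma 2 (fun _ => n) _ (fun _ => 1) (fun _ => by norm_num) fun _ => ?_
  refine IsLevel.pi 1 (fun _ => n) _ (fun _ => 0) (fun _ => by norm_num) fun i => ?_
  exact IsLevel.qf _ _ (theta_isQF a δ hδ _ _)

theorem piPart_level (hδ : BoundedFormula.IsQF δ) (e : ℕ → Ix a δ ⊕ L.Term (Fin n)) :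
    IsLevel false 2 (piPart a δ e) := by
  refine IsLevel.pi 2 (fun _ => n + 1) _ (fun _ => 1) (fun _ => by norm_num) fun _ => ?_
  refine IsLevel.sigma 1 (fun _ => n) _ (fun _ => 0) (fun _ => by norm_num) fun i => ?_
  refine IsLevel.qf _ _ ?_
  rcases e i with j | t
  · exact (theta_isQF a δ hδ _ _).not
  · exact equal_isQF _ _

theorem realize_sigmaPart (e : ℕ → Ix a δ) (he : Function.Surjective e) :
    (sigmaPart a δ e).Realize (M := M) Fin.elim0 ↔ ∃ y : Fin n → M, Good (M := M) a δ y := by
  simp only [sigmaPart, Form.Realize, exists_const]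
  refine exists_congr fun y => ?_
  have h0 : (Fin.append (Fin.elim0 : Fin 0 → M) y ∘ Fin.natAdd 0 : Fin n → M) = y := by
    funext i; exact Fin.append_right _ y i
  rw [← he.forall (p := fun i => ∀ z : Fin n → M, (theta a δ (Fin.natAdd 0) i).Realize
    (Fin.append (Fin.append (Fin.elim0 : Fin 0 → M) y) z)), all_theta_iff, h0]

theorem realize_piPart (e : ℕ → Ix a δ ⊕ L.Term (Fin n)) (he : Function.Surjective e) :
    (piPart a δ e).Realize (M := M) Fin.elim0 ↔
      ∀ y : Fin n → M, Good (M := M) a δ y → ∀ b : M, ∃ t : L.Term (Fin n), b = t.realize y := by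
  simp only [piPart, Form.Realize, forall_const]
  have key : ∀ w : Fin (n + 1) → M,
      (∃ i, ∃ z : Fin n → M, (matrix a δ (e i)).Realize
        (Fin.append (Fin.append (Fin.elim0 : Fin 0 → M) w) z)) ↔
      (Good (M := M) a δ (w ∘ Fin.castSucc) →
        ∃ t : L.Term (Fin n), w (Fin.last n) = t.realize (w ∘ Fin.castSucc)) := by
    intro w
    rw [← he.exists (p := fun i => ∃ z : Fin n → M, (matrix a δ i).Realize
        (Fin.append (Fin.append (Fin.elim0 : Fin 0 → M) w) z))]
    have h0 : (Fin.append (Fin.elim0 : Fin 0 → M) w ∘ fun j : Fin n =>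
        Fin.natAdd 0 (Fin.castSucc j)) = w ∘ Fin.castSucc := by
      funext i; exact Fin.append_right _ w _
    have hjj : ∀ (z : Fin n → M) (j : Fin n), Fin.append (Fin.append (Fin.elim0 : Fin 0 → M) w) z
        (Fin.castAdd n (Fin.natAdd 0 (Fin.castSucc j))) = w (Fin.castSucc j) := by
      intro z j
      rw [Fin.append_left, Fin.append_right]
    rw [← h0, ← all_theta_iff]
    constructor
    · rintro ⟨(i | t), z, hz⟩ hall
      · exact absurd (hall i z) (by simpa [matrix, Formula.realize_not] using hz)
      · refine ⟨t, ?_⟩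
        rw [h0]
        simp only [matrix, Formula.realize_equal, Term.realize_var, Term.realize_relabel,
          Fin.append_left, Fin.append_right] at hz
        rw [hz]
        congr 1
        funext j
        exact hjj z j
    · intro h
      by_cases hall : ∀ i : Ix a δ, ∀ z : Fin n → M,
          (theta a δ (fun j => Fin.natAdd 0 (Fin.castSucc j)) i).Realize
            (Fin.append (Fin.append (Fin.elim0 : Fin 0 → M) w) z)
      · obtain ⟨t, ht⟩ := h hall
        rw [h0] at ht
        refine ⟨.inr t, fun i => w (Fin.castSucc i), ?_⟩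
        simp only [matrix, Formula.realize_equal, Term.realize_var, Term.realize_relabel,
          Fin.append_left, Fin.append_right]
        rw [ht]
        congr 1
        funext j
        exact (hjj _ j).symm
      · push Not at hall
        obtain ⟨i, z, hz⟩ := hall
        exact ⟨.inl i, z, by simpa [matrix, Formula.realize_not] using hz⟩
  constructor
  · intro h y hy b
    have := (key (Fin.snoc y b)).1 (h _)
    have h1 : (Fin.snoc y b : Fin (n + 1) → M) ∘ Fin.castSucc = y := by
      funext i; simp
    rw [h1] at this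
    simpa using this hy
  · intro h w
    rw [key]
    intro hg
    exact h _ hg _

/-- a generating tuple with the right equality type gives an isomorphism -/
theorem equiv_of_good [L.IsAlgebraic] (ha : ∀ x : A, ∃ t : L.Term (Fin n), x = t.realize a)
    (y : Fin n → M) (hy : Good (M := M) a δ y) (hgen : ∀ b : M, ∃ t : L.Term (Fin n),
      b = t.realize y) : Nonempty (M ≃[L] A) := by
  choose f hf using ha
  choose g hg using hgen
  have h1 := hy.1
  refine ⟨⟨⟨fun b => (g b).realize a, fun x => (f x).realize y, ?_, ?_⟩, ?_, ?_⟩⟩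
  · intro b
    have : (f ((g b).realize a)).realize a = (g b).realize a := (hf _).symm
    change (f ((g b).realize a)).realize y = b
    rw [(h1 _ _).1 this]
    exact (hg b).symm
  · intro x
    have : (g ((f x).realize y)).realize y = (f x).realize y := (hg _).symm
    change (g ((f x).realize y)).realize a = x
    rw [(h1 _ _).2 this]
    exact (hf x).symm
  · intro k F z
    change (g (Structure.funMap F z)).realize a = Structure.funMap F (fun i => (g (z i)).realize a)
    have h2 : (Term.func F fun i => g (z i)).realize a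
        = Structure.funMap F (fun i => (g (z i)).realize a) := rfl
    rw [← h2]
    refine (h1 _ _).2 ?_
    rw [← hg, Term.realize_func]
    congr 1
    funext i
    exact hg (z i)
  · intro k R
    exact isEmptyElim R

/-- General criterion. Let `a` generate `A` and satisfy the quantifier-free formula `δ`, and
suppose that `w(a)` generates `A` whenever `w(c) = a` for some solution `c` of `δ` in `A`. Then
`A` has a `d-Σ₂` Scott sentence. -/
theorem exists_scott [L.IsAlgebraic] [Countable (Σ l, L.Functions l)]
    [Nonempty (L.Term (Fin n))]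
    (ha : ∀ x : A, ∃ t : L.Term (Fin n), x = t.realize a)
    (hδ : BoundedFormula.IsQF δ) (hda : δ.Realize a)
    (H : ∀ (w : Fin n → L.Term (Fin n)) (c : Fin n → A), δ.Realize c →
      (∀ i, (w i).realize c = a i) →
      ∀ x : A, ∃ t : L.Term (Fin n), x = t.realize fun i => (w i).realize a) :
    ∃ φ : Form L 0, IsDSigma 2 φ ∧ IsScottSentence.{u, v} A φ := by
  classical
  obtain ⟨e, he⟩ := exists_surjective_nat (Ix a δ)
  obtain ⟨e', he'⟩ := exists_surjective_nat (Ix a δ ⊕ L.Term (Fin n))
  have hA : (Form.and (sigmaPart a δ e) (piPart a δ e')).Realize (M := A) Fin.elim0 := by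
    refine ⟨(realize_sigmaPart a δ e he).2 ⟨a, fun s t => Iff.rfl, ?_⟩,
      (realize_piPart a δ e' he').2 ?_⟩
    · rintro ⟨w, hw⟩ z ⟨hz, hz'⟩
      exact hw ⟨z, hz, fun i => (hz' i).symm⟩
    · rintro y ⟨-, hy⟩ b
      choose w hw using fun i => ha (y i)
      have hnb : ∃ c : Fin n → A, δ.Realize c ∧ ∀ i, (w i).realize c = a i := by
        by_contra hbad
        exact hy ⟨w, hbad⟩ a ⟨hda, hw⟩
      obtain ⟨c, hc, hc'⟩ := hnb
      obtain ⟨t, ht⟩ := H w c hc hc' b
      exact ⟨t, by rw [ht, funext hw]⟩
  refine ⟨.and (sigmaPart a δ e) (piPart a δ e'),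
    ⟨_, _, rfl, sigmaPart_level a δ hδ e, piPart_level a δ hδ e'⟩, ?_⟩
  intro M _ _
  constructor
  · rintro ⟨h1, h2⟩
    obtain ⟨y, hy⟩ := (realize_sigmaPart a δ e he).1 h1
    exact equiv_of_good a δ ha y hy ((realize_piPart a δ e' he').1 h2 y hy)
  · rintro ⟨f⟩
    rw [← realize_equiv f]
    have h0 : (f ∘ Fin.elim0 : Fin 0 → A) = Fin.elim0 := by
      funext i; exact i.elim0
    rw [h0]
    exact hA

end General

section Ring

open FirstOrder.Ring

theorem injective_of_surjective {A : Type u} [CommRing A] [IsNoetherianRing A] (r : A →+* A)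
    (hr : Function.Surjective r) : Function.Injective r := by
  have hmono : Monotone fun k : ℕ => RingHom.ker (r ^ k) := by
    refine monotone_nat_of_le_succ fun k x hx => ?_
    rw [RingHom.mem_ker] at hx ⊢
    rw [pow_succ', RingHom.mul_def, RingHom.comp_apply, hx, map_zero]
  obtain ⟨N, hN⟩ := monotone_stabilizes_iff_noetherian.2 (inferInstance : IsNoetherian A A)
    ⟨fun k : ℕ => RingHom.ker (r ^ k), hmono⟩
  rw [injective_iff_map_eq_zero]
  intro x hx
  have hsurj : Function.Surjective (r ^ N) := by
    clear hN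
    induction N with
    | zero => exact Function.surjective_id
    | succ k ih =>
      rw [pow_succ, RingHom.mul_def, RingHom.coe_comp]
      exact ih.comp hr
  obtain ⟨y, rfl⟩ := hsurj x
  have h1 : y ∈ RingHom.ker (r ^ (N + 1)) := by
    rw [RingHom.mem_ker, pow_succ', RingHom.mul_def, RingHom.comp_apply, hx]
  have h2 := hN (N + 1) (Nat.le_succ N)
  change RingHom.ker (r ^ N) = RingHom.ker (r ^ (N + 1)) at h2
  rw [← h2, RingHom.mem_ker] at h1
  exact h1

set_option backward.isDefEq.respectTransparency false in
theorem map_realize {A : Type u} [CommRing A] [CompatibleRing A] {n : ℕ} (b : Fin n → A)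
    (t : Language.ring.Term (Fin n)) (r : A →+* A) : r (t.realize b) = t.realize (r ∘ b) := by
  induction t with
  | var i => rfl
  | func g ts ih =>
    cases g <;> simp [ih]

/-- **Every finitely generated commutative ring has a `d-Σ₂` Scott sentence**; in particular
this holds for every finitely generated integral domain. -/
theorem result (A : Type u) [CommRing A] [Algebra.FiniteType ℤ A] [CompatibleRing A] :
    ∃ φ : Form Language.ring 0, IsDSigma 2 φ ∧ IsScottSentence.{u, v} A φ := by
  classical
  obtain ⟨n, f, hf⟩ := Algebra.FiniteType.iff_quotient_mvPolynomial''.1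
    (inferInstance : Algebra.FiniteType ℤ A)
  let E : FreeCommRing (Fin n) ≃+* MvPolynomial (Fin n) ℤ := freeCommRingEquivMvPolynomialInt _
  let a : Fin n → A := fun i => f (MvPolynomial.X i)
  let F : FreeCommRing (Fin n) →+* A := FreeCommRing.lift a
  have hF : ∀ p, F p = f (E p) := by
    intro p
    have h : F = (f : MvPolynomial (Fin n) ℤ →+* A).comp (E : FreeCommRing (Fin n) →+* _) := by
      refine FreeCommRing.hom_ext fun i => ?_
      simp [F, E, a, freeCommRingEquivMvPolynomialInt]
    rw [h]
    rfl
  have hFs : Function.Surjective F := by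
    intro x
    obtain ⟨q, rfl⟩ := hf x
    exact ⟨E.symm q, by rw [hF]; simp⟩
  have : IsNoetherianRing (FreeCommRing (Fin n)) := isNoetherianRing_of_ringEquiv _ E.symm
  have : IsNoetherianRing A := isNoetherianRing_of_surjective _ _ F hFs
  obtain ⟨S, hS⟩ : ∃ S : Finset (FreeCommRing (Fin n)), Ideal.span (S : Set _) = RingHom.ker F :=
    (isNoetherianRing_iff_ideal_fg _).1 inferInstance (RingHom.ker F)
  let δ : Language.ring.Formula (Fin n) :=
    listInf (S.toList.map fun p => (termOfFreeCommRing p).equal 0)
  have hreal : ∀ c : Fin n → A, δ.Realize c ↔ RingHom.ker F ≤ RingHom.ker (FreeCommRing.lift c) := by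
    intro c
    rw [← hS, Ideal.span_le, realize_listInf]
    simp only [List.mem_map, Finset.mem_toList, forall_exists_index, and_imp,
      forall_apply_eq_imp_iff₂, Formula.realize_equal, realize_termOfFreeCommRing, realize_zero]
    rfl
  have hterm : ∀ (b : Fin n → A) (t : Language.ring.Term (Fin n)) (r : A →+* A),
      r (t.realize b) = t.realize (r ∘ b) := map_realize
  refine exists_scott a δ ?_ ?_ ?_ ?_
  · intro x
    obtain ⟨p, rfl⟩ := hFs x
    exact ⟨termOfFreeCommRing p, (realize_termOfFreeCommRing p a).symm⟩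
  · refine listInf_isQF _ ?_
    simp only [List.mem_map, Finset.mem_toList, forall_exists_index, and_imp,
      forall_apply_eq_imp_iff₂]
    intro p _
    exact equal_isQF _ _
  · rw [hreal]
  · intro w c hc hwc x
    rw [hreal] at hc
    obtain ⟨r, hr⟩ : ∃ r : A →+* A, ∀ p, r (F p) = FreeCommRing.lift c p :=
      ⟨RingHom.liftOfRightInverse F _ (Function.rightInverse_surjInv hFs)
        ⟨FreeCommRing.lift c, hc⟩, fun p =>
        RingHom.liftOfRightInverse_comp_apply F _ (Function.rightInverse_surjInv hFs)
          ⟨FreeCommRing.lift c, hc⟩ p⟩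
    have hra : r ∘ a = c := by
      funext i
      have h1 : a i = F (FreeCommRing.of i) := by simp [F]
      have h2 : c i = FreeCommRing.lift c (FreeCommRing.of i) := by simp
      rw [Function.comp_apply, h1, hr, ← h2]
    let b : Fin n → A := fun i => (w i).realize a
    have hrb : r ∘ b = a := by
      funext i
      rw [Function.comp_apply, hterm, hra, hwc]
    have hgen : ∀ x : A, ∃ t : Language.ring.Term (Fin n), x = t.realize a := by
      intro x
      obtain ⟨p, rfl⟩ := hFs x
      exact ⟨termOfFreeCommRing p, (realize_termOfFreeCommRing p a).symm⟩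
    have hrs : Function.Surjective r := by
      intro y
      obtain ⟨t, rfl⟩ := hgen y
      exact ⟨t.realize b, by rw [hterm, hrb]⟩
    obtain ⟨t, ht⟩ := hgen (r x)
    refine ⟨t, injective_of_surjective r hrs ?_⟩
    rw [ht]
    change t.realize a = r (t.realize b)
    rw [hterm, hrb]

end Ring

end Pool.Agent.Results.MP_93e0ce_lc.FGCommRingScott
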